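import Pool.Agent.helper89.PU.Spec1

/-!
# Project PU (MP_2e0e07_nt), row pv:GRD: the graded pieces
-/

set_option autoImplicit false

namespace Pool.Agent.PV

open Matrix Polynomial Pool.Agent.GO Pool.Agent.AR Pool.Agent.RG Pool.Agent.HZ Pool.Agent.DS
  Pool.Agent.AX Pool.Agent.UM Pool.Agent.PU MeasureTheory NumberField

theorem GRD_pow {A B : Type} [CommRing A] [Ring B] [Algebra A B] (c : A) (Y : B) (n : ℕ) :
    ∃ W : B, (1 + c • Y) ^ n = 1 + ((n : A) * c) • Y + (c * c) • W := by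
  induction n with
  | zero => exact ⟨0, by simp⟩
  | succ n ih =>
    obtain ⟨W, hW⟩ := ih
    refine ⟨W + (n : A) • (Y * Y) + c • (W * Y), ?_⟩
    rw [pow_succ, hW]
    simp only [add_mul, mul_add, one_mul, mul_one, smul_mul_assoc, mul_smul_comm, Nat.cast_add, Nat.cast_one]
    module

section

variable {p : ℕ} [Fact p.Prime] {Γ m : Type} [Group Γ] [Fintype m] [DecidableEq m]

theorem GRD_dvd (x : ℤ_[p]) : PadicInt.toZMod x = 0 ↔ (p : ℤ_[p]) ∣ x := by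
  rw [← RingHom.mem_ker, PadicInt.ker_toZMod, PadicInt.maximalIdeal_eq_span_p, Ideal.mem_span_singleton]

/-- membership in the graded piece -/
def GRD_S (V : Γ →* Matrix m m ℤ_[p]) (G₁ : Subgroup Γ) (r : ℕ) (A : Matrix m m (ZMod p)) : Prop :=
  ∃ h ∈ G₁, ∃ Y : Matrix m m ℤ_[p], V h = 1 + (p : ℤ_[p]) ^ r • Y ∧ Y.map PadicInt.toZMod = A

theorem GRD_map_small (Y : Matrix m m ℤ_[p]) (r : ℕ) (hr : 1 ≤ r) :
    ((p : ℤ_[p]) ^ r • Y).map PadicInt.toZMod = 0 := by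
  ext i j
  rw [Matrix.map_apply, Matrix.smul_apply, smul_eq_mul, Matrix.zero_apply, GRD_dvd]
  exact Dvd.dvd.mul_right (dvd_pow_self _ (by omega)) _

theorem GRD_map_add (Y Z : Matrix m m ℤ_[p]) :
    (Y + Z).map PadicInt.toZMod = Y.map PadicInt.toZMod + Z.map PadicInt.toZMod := by
  ext i j
  rw [Matrix.map_apply, Matrix.add_apply, Matrix.add_apply, Matrix.map_apply, Matrix.map_apply, map_add]

theorem GRD_map_neg (Y : Matrix m m ℤ_[p]) :
    (-Y).map PadicInt.toZMod = -Y.map PadicInt.toZMod := by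
  ext i j
  rw [Matrix.map_apply, Matrix.neg_apply, Matrix.neg_apply, Matrix.map_apply, map_neg]

theorem GRD_mul_small (Y Z : Matrix m m ℤ_[p]) (r : ℕ) (hr : 1 ≤ r) :
    (Y * ((p : ℤ_[p]) ^ r • Z)).map PadicInt.toZMod = 0 := by
  rw [Matrix.mul_smul]
  exact GRD_map_small _ r hr

/-- the graded piece -/
noncomputable def GRD_gr (V : Γ →* Matrix m m ℤ_[p]) (G₁ : Subgroup Γ) (r : ℕ) (hr : 1 ≤ r) :
    AddSubgroup (Matrix m m (ZMod p)) where
  carrier := {A | GRD_S V G₁ r A}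
  zero_mem' := by
    refine ⟨1, G₁.one_mem, 0, ?_, ?_⟩
    · rw [map_one, smul_zero, add_zero]
    · ext i j
      simp
  add_mem' := by
    rintro A B ⟨h, hh, Y, hY, rfl⟩ ⟨k, hk, Z, hZ, rfl⟩
    refine ⟨h * k, G₁.mul_mem hh hk, Y + Z + Y * ((p : ℤ_[p]) ^ r • Z), ?_, ?_⟩
    · rw [map_mul, hY, hZ]
      simp only [add_mul, mul_add, one_mul, mul_one, smul_add, Matrix.smul_mul]
      abel
    · rw [GRD_map_add, GRD_map_add, GRD_mul_small Y Z r hr, add_zero]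
  neg_mem' := by
    rintro A ⟨h, hh, Y, hY, rfl⟩
    have h1 : V h * V h⁻¹ = 1 := by
      rw [← map_mul, mul_inv_cancel, map_one]
    have h2 : V h⁻¹ = 1 + (p : ℤ_[p]) ^ r • (-(Y * V h⁻¹)) := by
      rw [hY] at h1
      rw [add_mul, one_mul, Matrix.smul_mul] at h1
      rw [smul_neg, ← h1]
      abel
    refine ⟨h⁻¹, G₁.inv_mem hh, -(Y * V h⁻¹), h2, ?_⟩
    have h3 : Y * V h⁻¹ = Y + Y * ((p : ℤ_[p]) ^ r • (-(Y * V h⁻¹))) := by
      conv_lhs => rw [h2]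
      rw [mul_add, mul_one]
    rw [GRD_map_neg, h3, GRD_map_add, GRD_mul_small _ _ r hr, add_zero]

theorem GRD_mem (V : Γ →* Matrix m m ℤ_[p]) (G₁ : Subgroup Γ) (r : ℕ) (hr : 1 ≤ r) (A : Matrix m m (ZMod p)) :
    A ∈ GRD_gr V G₁ r hr ↔ GRD_S V G₁ r A := Iff.rfl

theorem GRD_le (V : Γ →* Matrix m m ℤ_[p]) (G₁ : Subgroup Γ) (r : ℕ) (hr : 2 ≤ r) :
    GRD_gr V G₁ r (by omega) ≤ GRD_gr V G₁ (r + 1) (by omega) := by
  rintro A ⟨h, hh, Y, hY, rfl⟩
  obtain ⟨W, hW⟩ := GRD_pow ((p : ℤ_[p]) ^ r) Y p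
  refine ⟨h ^ p, G₁.pow_mem hh p, Y + (p : ℤ_[p]) ^ (r - 1) • W, ?_, ?_⟩
  · rw [map_pow, hY, hW, smul_add, smul_smul]
    have e1 : (p : ℤ_[p]) * (p : ℤ_[p]) ^ r = (p : ℤ_[p]) ^ (r + 1) := by ring
    have e2 : (p : ℤ_[p]) ^ r * (p : ℤ_[p]) ^ r = (p : ℤ_[p]) ^ (r + 1) * (p : ℤ_[p]) ^ (r - 1) := by
      rw [← pow_add, ← pow_add]
      congr 1
      omega
    rw [e1, e2, add_assoc]
  · rw [GRD_map_add, GRD_map_small W (r - 1) (by omega), add_zero]

theorem GRD_mono (V : Γ →* Matrix m m ℤ_[p]) (G₁ : Subgroup Γ) (r : ℕ) (hr : 2 ≤ r) (k : ℕ) :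
    GRD_gr V G₁ r (by omega) ≤ GRD_gr V G₁ (r + k) (by omega) := by
  induction k with
  | zero => exact le_rfl
  | succ k ih => exact ih.trans (GRD_le V G₁ (r + k) (by omega))

end

theorem GRD : GRD_stmt := by
  intro p _ Γ m _ _ _ V G₁
  have hmono : ∀ r r' : ℕ, ∀ hr : 2 ≤ r, ∀ hrr : r ≤ r',
      GRD_gr V G₁ r (by omega) ≤ GRD_gr V G₁ r' (by omega) := by
    intro r r' hr hrr
    obtain ⟨k, rfl⟩ := Nat.exists_eq_add_of_le hrr
    exact GRD_mono V G₁ r hr k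
  set M : ℕ → Submodule (ZMod p) (Matrix m m (ZMod p)) := fun r =>
    AddSubgroup.toZModSubmodule p (GRD_gr V G₁ (max r 2) (by omega)) with hM
  have hMmono : ∀ r r' : ℕ, r ≤ r' → M r ≤ M r' := by
    intro r r' hrr
    intro A hA
    exact hmono (max r 2) (max r' 2) (by omega) (by omega) hA
  refine ⟨fun r => Module.finrank (ZMod p) (M r), fun r r' hrr => Submodule.finrank_mono (hMmono r r' hrr),
    fun r => ?_, fun r r' hr hrr he u hu => ?_⟩
  · have h1 := Submodule.finrank_le (M r)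
    rw [Module.finrank_matrix, Module.finrank_self, mul_one] at h1
    rw [sq]
    exact h1
  · have h1 : M r = M r' := Submodule.eq_of_le_of_finrank_eq (hMmono r r' hrr) he
    have h2 := hu.2
    choose Y0 hY0 using h2
    set Y : Matrix m m ℤ_[p] := Matrix.of Y0 with hY
    have h3 : V u = 1 + (p : ℤ_[p]) ^ r' • Y := by
      ext i j
      have h4 := hY0 i j
      rw [Matrix.sub_apply] at h4
      rw [Matrix.add_apply, Matrix.smul_apply, smul_eq_mul, hY, Matrix.of_apply, ← h4]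
      ring
    have hmr : max r 2 = r := by omega
    have hmr' : max r' 2 = r' := by omega
    have h5 : Y.map PadicInt.toZMod ∈ M r' := by
      show GRD_S V G₁ (max r' 2) _
      rw [hmr']
      exact ⟨u, hu.1, Y, h3, rfl⟩
    rw [← h1] at h5
    have h6 : GRD_S V G₁ (max r 2) (Y.map PadicInt.toZMod) := h5
    rw [hmr] at h6
    obtain ⟨h, hh, Y', hY', hYY⟩ := h6
    refine ⟨h, ⟨hh, fun i j => ?_⟩, Y, Y', h3, hY', fun i j => ?_⟩
    · rw [hY', add_sub_cancel_left, Matrix.smul_apply, smul_eq_mul]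
      exact dvd_mul_right _ _
    · rw [← GRD_dvd, Matrix.sub_apply, map_sub, sub_eq_zero]
      have h7 := congrFun (congrFun hYY i) j
      rw [Matrix.map_apply, Matrix.map_apply] at h7
      exact h7.symm

end Pool.Agent.PV
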