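import Pool.Agent.helper16.PU.Spec2

set_option autoImplicit false

/-!
# Project PU (MP_2e0e07_nt), row GSL: groups of traceless matrices stable under `mu`, `mw`
-/

namespace Pool.Agent.PU

open Matrix Polynomial Pool.Agent.GO Pool.Agent.AR Pool.Agent.RG Pool.Agent.HZ Pool.Agent.DS
  Pool.Agent.AX Pool.Agent.UM NumberField

theorem GSL : GSL_stmt := by
  intro p hp hp2 κ _ _ W htr hd1 hd2
  have hhalf : ∀ Y : Matrix (Fin 2) (Fin 2) κ, Y + Y ∈ W → Y ∈ W := by
    intro Y hY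
    obtain ⟨k, hk⟩ : ∃ k, p = 2 * k + 1 := by
      rcases hp.out.eq_two_or_odd with h | h
      · exact absurd h hp2
      · exact ⟨p / 2, by omega⟩
    have h1 : (k + 1) • (Y + Y) = Y := by
      have h2 : (p : κ) = 0 := CharP.cast_eq_zero κ p
      rw [hk] at h2
      push_cast at h2
      ext i j
      rw [Matrix.smul_apply, Matrix.add_apply, nsmul_eq_mul]
      push_cast
      linear_combination Y i j * h2
    rw [← h1]
    exact W.nsmul_mem hY (k + 1)
  have d1 : ∀ h b c : κ, !![h, b; c, -h] ∈ W → !![c, -2 * h - c; 0, -c] ∈ W := by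
    intro h b c hX
    have h1 := W.sub_mem (hd1 _ hX) hX
    have e : mu κ * !![h, b; c, -h] * !![1, -1; 0, 1] - !![h, b; c, -h] =
        !![c, -2 * h - c; 0, -c] := by
      ext i j
      fin_cases i <;> fin_cases j <;> simp [mu, Matrix.mul_apply, Fin.sum_univ_two] <;> ring
    rwa [e] at h1
  have d2 : ∀ h b c : κ, !![h, b; c, -h] ∈ W → !![-b, 0; 2 * h - b, b] ∈ W := by
    intro h b c hX
    have h1 := W.sub_mem (hd2 _ hX) hX
    have e : mw κ * !![h, b; c, -h] * !![1, 0; -1, 1] - !![h, b; c, -h] =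
        !![-b, 0; 2 * h - b, b] := by
      ext i j
      fin_cases i <;> fin_cases j <;> simp [mw, Matrix.mul_apply, Fin.sum_univ_two] <;> ring
    rwa [e] at h1
  -- halving with sign
  have hneg : ∀ Y Z : Matrix (Fin 2) (Fin 2) κ, Z ∈ W → Z = -(Y + Y) → Y ∈ W := by
    intro Y Z hZ he
    apply hhalf
    have : Y + Y = -Z := by rw [he, neg_neg]
    rw [this]
    exact W.neg_mem hZ
  have s1 : ∀ h b c : κ, !![h, b; c, -h] ∈ W → !![0, c; 0, 0] ∈ W := by
    intro h b c hX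
    have h2 := d1 c (-2 * h - c) 0 (d1 h b c hX)
    refine hneg _ _ h2 ?_
    ext i j
    fin_cases i <;> fin_cases j <;> simp <;> ring
  have s2 : ∀ h b c : κ, !![h, b; c, -h] ∈ W → !![0, 0; b, 0] ∈ W := by
    intro h b c hX
    have h1 := d2 h b c hX
    have h1' : !![-b, 0; 2 * h - b, - -b] ∈ W := by rwa [neg_neg]
    have h2 := d2 (-b) 0 (2 * h - b) h1'
    refine hneg _ _ h2 ?_
    ext i j
    fin_cases i <;> fin_cases j <;> simp <;> ring
  have t1 : ∀ h b c : κ, !![h, b; c, -h] ∈ W → !![c, 0; 0, -c] ∈ W := by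
    intro h b c hX
    have h1 : !![0, c; 0, -(0 : κ)] ∈ W := by
      rw [neg_zero]
      exact s1 h b c hX
    have h2 := d2 0 c 0 h1
    have h3 := s2 0 c 0 h1
    have e : !![c, 0; 0, -c] = -(!![-c, 0; 2 * 0 - c, c] + !![0, 0; c, 0]) := by
      ext i j
      fin_cases i <;> fin_cases j <;> simp
    rw [e]
    exact W.neg_mem (W.add_mem h2 h3)
  have t2 : ∀ h b c : κ, !![h, b; c, -h] ∈ W → !![0, b; 0, 0] ∈ W ∧ !![b, 0; 0, -b] ∈ W := by
    intro h b c hX
    have h1 : !![0, 0; b, -(0 : κ)] ∈ W := by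
      rw [neg_zero]
      exact s2 h b c hX
    have h2 := s1 0 0 b h1
    have h3 := d1 0 0 b h1
    refine ⟨h2, ?_⟩
    have e : !![b, 0; 0, -b] = !![b, -2 * 0 - b; 0, -b] + !![0, b; 0, 0] := by
      ext i j
      fin_cases i <;> fin_cases j <;> simp
    rw [e]
    exact W.add_mem h3 h2
  -- from one coordinate to another
  have u2 : ∀ x : κ, !![x, 0; 0, -x] ∈ W → !![0, x; 0, 0] ∈ W := by
    intro x hx
    have h1 := d1 x 0 0 hx
    refine hneg _ _ h1 ?_
    ext i j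
    fin_cases i <;> fin_cases j <;> simp <;> ring
  have v1 : ∀ x : κ, !![0, x; 0, 0] ∈ W → !![0, 0; x, 0] ∈ W ∧ !![x, 0; 0, -x] ∈ W := by
    intro x hx
    have h1 : !![0, x; 0, -(0 : κ)] ∈ W := by
      rw [neg_zero]
      exact hx
    exact ⟨s2 0 x 0 h1, (t2 0 x 0 h1).2⟩
  intro h b c
  constructor
  · intro hX
    have a1 := t1 _ _ _ hX
    have a5 := t2 _ _ _ (d1 _ _ _ hX)
    have a6 : !![h, 0; 0, -h] ∈ W := by
      refine hneg _ _ (W.add_mem a5.2 a1) ?_
      ext i j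
      fin_cases i <;> fin_cases j <;> simp <;> ring
    exact ⟨u2 h a6, (t2 _ _ _ hX).1, s1 _ _ _ hX⟩
  · rintro ⟨h1, h2, h3⟩
    have e : !![h, b; c, -h] = !![h, 0; 0, -h] + !![0, b; 0, 0] + !![0, 0; c, 0] := by
      ext i j
      fin_cases i <;> fin_cases j <;> simp
    rw [e]
    exact W.add_mem (W.add_mem (v1 h h1).2 h2) (v1 c h3).1

end Pool.Agent.PU
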