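import Pool.Agent.helper16.PU.Spec2

set_option autoImplicit false

/-!
# Project PU (MP_2e0e07_nt), row NKR: norms of elements of the kernel
-/

namespace Pool.Agent.PU

open Matrix Polynomial Pool.Agent.GO Pool.Agent.AR Pool.Agent.RG Pool.Agent.HZ Pool.Agent.DS
  Pool.Agent.AX Pool.Agent.UM NumberField

theorem NKR : NKR_stmt := by
  intro E _ _ p κ _ _ hp f x hx
  have h1 : (p : 𝓞 E) ∈ RingHom.ker f := by
    rw [RingHom.mem_ker, map_natCast, CharP.cast_eq_zero]
  have h2 : Ideal.absNorm (RingHom.ker f) ∣ Ideal.absNorm (Ideal.span {(p : 𝓞 E)}) :=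
    Ideal.absNorm_dvd_absNorm_of_le ((Ideal.span_singleton_le_iff_mem _).mpr h1)
  have h3 : Ideal.absNorm (RingHom.ker f) ≠ 1 := by
    rw [Ne, Ideal.absNorm_eq_one_iff]
    exact RingHom.ker_ne_top f
  have h4 : Ideal.absNorm (Ideal.span {(p : 𝓞 E)}) = p ^ Module.finrank ℤ (𝓞 E) := by
    rw [Ideal.absNorm_span_singleton]
    have h5 : (p : 𝓞 E) = algebraMap ℤ (𝓞 E) p := by simp
    rw [h5, Algebra.norm_algebraMap, Int.natAbs_pow, Int.natAbs_natCast]
  rw [h4] at h2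
  obtain ⟨k, -, hk⟩ := (Nat.dvd_prime_pow hp).1 h2
  rw [hk] at h3
  have hk0 : k ≠ 0 := by
    rintro rfl
    exact h3 (pow_zero p)
  have h6 : p ∣ Ideal.absNorm (RingHom.ker f) := by
    rw [hk]
    exact dvd_pow_self p hk0
  have h7 : Ideal.absNorm (RingHom.ker f) ∣ Ideal.absNorm (Ideal.span {x}) :=
    Ideal.absNorm_dvd_absNorm_of_le ((Ideal.span_singleton_le_iff_mem _).mpr (RingHom.mem_ker.mpr hx))
  rw [Ideal.absNorm_span_singleton] at h7
  exact h6.trans h7

end Pool.Agent.PU
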