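import Pool.Agent.helper16.PU.Spec2

set_option autoImplicit false

/-!
# Project PU (MP_2e0e07_nt), row TEL: telescoping of indices
-/

namespace Pool.Agent.PU

open Matrix Polynomial Pool.Agent.GO Pool.Agent.AR Pool.Agent.RG Pool.Agent.HZ Pool.Agent.DS
  Pool.Agent.AX Pool.Agent.UM NumberField

theorem TEL_w {Γ : Type} [Group Γ] (L : ℕ → Subgroup Γ) (h0 : L 0 = ⊤) (hanti : Antitone L) (J : ℕ) :
    (L J).index = ∏ j ∈ Finset.range J, (L (j + 1)).relIndex (L j) := by
  induction J with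
  | zero => rw [h0, Subgroup.index_top, Finset.range_zero, Finset.prod_empty]
  | succ J ih =>
    rw [Finset.prod_range_succ, ← ih, mul_comm]
    exact (Subgroup.relIndex_mul_index (hanti (Nat.le_succ J))).symm

theorem TEL_z {Γ : Type} [Group Γ] (L : ℕ → Subgroup Γ) (Z : Subgroup Γ) (hanti : Antitone L) (J : ℕ) :
    (L (J + 1) ⊓ Z).relIndex (L 1 ⊓ Z) =
      ∏ i ∈ Finset.range J, (L (i + 1 + 1) ⊓ Z).relIndex (L (i + 1) ⊓ Z) := by
  induction J with
  | zero => rw [Finset.range_zero, Finset.prod_empty, zero_add, Subgroup.relIndex_self]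
  | succ J ih =>
    rw [Finset.prod_range_succ, ← ih, mul_comm]
    refine (Subgroup.relIndex_mul_relIndex _ _ _ ?_ ?_).symm
    · exact inf_le_inf_right Z (hanti (Nat.le_succ _))
    · exact inf_le_inf_right Z (hanti (by omega))

theorem TEL : TEL_stmt := by
  intro Γ _ L Z C b h0 hanti hnorm hZn hZ1 hw hz hwz
  set w : ℕ → ℕ := fun j => (L (j + 1)).relIndex (L j) with hwdef
  set z : ℕ → ℕ := fun j => (L (j + 1) ⊓ Z).relIndex (L j ⊓ Z) with hzdef
  have hw0 : ∀ j, 0 < w j := fun j => Nat.pos_of_ne_zero (hw j).1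
  have hwC : ∀ j, w j ≤ C := fun j => (hw j).2
  have hz0 : ∀ j, 0 < z j := fun j => Nat.pos_of_ne_zero (hz j)
  have key : ∀ N : ℕ, (Z ⊔ L (N + b + 1)).index ≠ 0 ∧ (Z ⊔ L (N + b + 1)).index ≤ C ^ (b + 1) := by
    intro N
    have := hnorm (N + b + 1)
    have e1 : (L (N + b + 1)).index = (∏ i ∈ Finset.range (N + b), w (i + 1)) * w 0 := by
      rw [TEL_w L h0 hanti, Finset.prod_range_succ']
    have e2 : (L (N + b + 1)).relIndex Z = ∏ i ∈ Finset.range (N + b), z (i + 1) := by
      have h1 := TEL_z L Z hanti (N + b)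
      rw [inf_eq_right.mpr hZ1, Subgroup.inf_relIndex_right] at h1
      exact h1
    have e3 : (L (N + b + 1)).relIndex (Z ⊔ L (N + b + 1)) * (Z ⊔ L (N + b + 1)).index = (L (N + b + 1)).index :=
      Subgroup.relIndex_mul_index le_sup_right
    rw [Subgroup.relIndex_sup_right, e1, e2] at e3
    have e4 : ∏ i ∈ Finset.range (N + b), w (i + 1) =
        (∏ i ∈ Finset.range N, w (i + 1)) * ∏ i ∈ Finset.range b, w (N + i + 1) := by
      rw [Finset.prod_range_add]
    have e5 : ∏ i ∈ Finset.range (N + b), z (i + 1) =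
        (∏ i ∈ Finset.range b, z (i + 1)) * ∏ i ∈ Finset.range N, z (b + i + 1) := by
      rw [add_comm N b, Finset.prod_range_add]
    have e6 : ∏ i ∈ Finset.range N, w (i + 1) ≤ ∏ i ∈ Finset.range N, z (b + i + 1) := by
      refine Finset.prod_le_prod' fun i _ => ?_
      have h1 := hwz (i + 1) (by omega)
      have h2 : z (b + i + 1) = (L (i + 1 + b + 1) ⊓ Z).relIndex (L (i + 1 + b) ⊓ Z) := by
        show (L (b + i + 1 + 1) ⊓ Z).relIndex (L (b + i + 1) ⊓ Z) = _
        rw [show b + i + 1 = i + 1 + b by omega]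
      rw [h2]
      exact h1
    have e7 : ∏ i ∈ Finset.range b, w (N + i + 1) ≤ C ^ b := by
      have h1 := Finset.prod_le_prod' (s := Finset.range b) (f := fun i => w (N + i + 1)) (g := fun _ => C)
        (fun i _ => hwC _)
      rwa [Finset.prod_const, Finset.card_range] at h1
    have e8 : 1 ≤ ∏ i ∈ Finset.range b, z (i + 1) := Nat.one_le_iff_ne_zero.mpr
      (Finset.prod_ne_zero_iff.mpr fun i _ => (hz0 _).ne')
    have hP : 0 < ∏ i ∈ Finset.range N, w (i + 1) := Finset.prod_pos fun i _ => hw0 _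
    have hPw : 0 < (∏ i ∈ Finset.range (N + b), w (i + 1)) * w 0 :=
      Nat.mul_pos (Finset.prod_pos fun i _ => hw0 _) (hw0 0)
    refine ⟨?_, ?_⟩
    · intro h
      rw [h, mul_zero] at e3
      omega
    · set I := (Z ⊔ L (N + b + 1)).index with hI
      set P := ∏ i ∈ Finset.range N, w (i + 1) with hPdef
      have f1 : I * P ≤ C ^ (b + 1) * P := by
        calc I * P ≤ I * ∏ i ∈ Finset.range (N + b), z (i + 1) := by
              refine Nat.mul_le_mul_left _ ?_
              rw [e5]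
              calc P ≤ ∏ i ∈ Finset.range N, z (b + i + 1) := e6
                _ = 1 * ∏ i ∈ Finset.range N, z (b + i + 1) := (one_mul _).symm
                _ ≤ _ := Nat.mul_le_mul_right _ e8
          _ = (∏ i ∈ Finset.range (N + b), w (i + 1)) * w 0 := by rw [mul_comm, e3]
          _ = P * (∏ i ∈ Finset.range b, w (N + i + 1)) * w 0 := by rw [e4]
          _ ≤ P * C ^ b * C := Nat.mul_le_mul (Nat.mul_le_mul_left _ e7) (hwC 0)
          _ = C ^ (b + 1) * P := by ring
      exact Nat.le_of_mul_le_mul_right f1 hP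
  intro J
  obtain ⟨h1, h2⟩ := key J
  have h3 : Z ⊔ L (J + b + 1) ≤ Z ⊔ L J := sup_le_sup_left (hanti (by omega)) Z
  have h4 := Subgroup.index_dvd_of_le h3
  refine ⟨fun h => h1 ?_, (Nat.le_of_dvd (Nat.pos_of_ne_zero h1) h4).trans h2⟩
  rw [h] at h4
  exact Nat.eq_zero_of_zero_dvd h4

end Pool.Agent.PU
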